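import Pool.Agent.H128.Rg.Good

/-!
# Injectivity of a generic multiplication for spheres with rigid graphs

For a complex `Δ` of dimension `d - 1` on `Fin n` and generic linear forms `θ_1, ..., θ_d, w, w'` over a field of
characteristic `0` the multiplication by `w'` from degree `1` to degree `2` of `K[Δ] / (θ_1, ..., θ_d, w)` is injective if
`Δ` is in the class `Good d`. This is the smallest class such that
* it contains the barycentric subdivisions of all strongly connected complexes of dimension `d - 1 ≥ 4` (for example, of
  simplicial spheres), the boundary of the cross-polytope of dimension `d = 5`, for `d = 4` the barycentric subdivision of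
  the boundary of the simplex with `5` vertices, and all complexes whose graphs are generically rigid in dimension `d + 1`,
* local to global (`stars`): a complex of dimension `d` is in the class if the links of its vertices (or of the vertices
  of a sufficiently large set) are in the class for `d`,
* edge contraction (`split`): a complex is in the class if the contraction of an edge with at least `d` common neighbors
  is in the class (in particular subdivisions of edges of flag spheres in the class are in the class),
* renaming the vertices and adding edges does not lead out of the class (`extend`).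

The proof shows that the graphs of the complexes in the class are generically rigid in dimension `d + 1`.
-/

set_option autoImplicit false

namespace Pool.Agent.Results.MP_7ca7f9_al.RigidGraphs

open Pool.Agent.H128.Rg

/-- **Injectivity for the complexes in the class.** For every field `K` of characteristic `0` and every complex `Δ` with
`Good d Δ` (all of whose `n` points are vertices): off a proper hypersurface of `(θ, w, w')`, multiplication by `w'` from
degree `1` to degree `2` of `S / (I_Δ + (θ, w))` is injective. The linear forms `θ_1, ..., θ_d, w` have the coefficients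
`c (k, i)`, `k ≤ d`, and `w'` has the coefficients `c (d + 1, i)`. -/
theorem result (K : Type) [Field K] [CharZero K] (d n : ℕ) (Δ : Finset (Finset (Fin n)))
    (hΔ : ∀ σ ∈ Δ, ∀ τ : Finset (Fin n), τ ⊆ σ → τ ∈ Δ) (hv : ∀ i : Fin n, ({i} : Finset (Fin n)) ∈ Δ)
    (h : Good d Δ) :
    ∃ f : MvPolynomial (Fin (d + 2) × Fin n) K, f ≠ 0 ∧
      ∀ c : Fin (d + 2) × Fin n → K, MvPolynomial.eval c f ≠ 0 →
        ∀ ℓ : MvPolynomial (Fin n) K, ℓ.IsHomogeneous 1 →
          (∑ i : Fin n, MvPolynomial.C (c (Fin.last (d + 1), i)) * MvPolynomial.X i) * ℓ ∈
            (Ideal.span ((fun σ : Finset (Fin n) => ∏ i ∈ σ, (MvPolynomial.X i : MvPolynomial (Fin n) K)) ''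
                {σ : Finset (Fin n) | σ ∉ Δ}) ⊔
             Ideal.span ((fun k : Fin (d + 2) => ∑ i : Fin n, MvPolynomial.C (c (k, i)) * MvPolynomial.X i) ''
                {k : Fin (d + 2) | (k : ℕ) ≤ d})) →
          ℓ ∈
            (Ideal.span ((fun σ : Finset (Fin n) => ∏ i ∈ σ, (MvPolynomial.X i : MvPolynomial (Fin n) K)) ''
                {σ : Finset (Fin n) | σ ∉ Δ}) ⊔
             Ideal.span ((fun k : Fin (d + 2) => ∑ i : Fin n, MvPolynomial.C (c (k, i)) * MvPolynomial.X i) ''
                {k : Fin (d + 2) | (k : ℕ) ≤ d})) := by
  obtain ⟨f, hf, hR⟩ := good_rigid h K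
  refine ⟨f, hf, fun c hc ℓ hℓ hmem => ?_⟩
  exact Ideal.mem_sup_right (Pool.Agent.H646.RgW1.alg Δ (fun F hF G hG => hΔ F hF G hG) hv c (hR c hc) ℓ hℓ hmem)

end Pool.Agent.Results.MP_7ca7f9_al.RigidGraphs
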